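import Pool.Agent.H61.AR.Targets

/-!
# Board MP_d9d403_gt (arq_modules), row CHV: an arc of the circle as a parameter
-/

set_option autoImplicit false

namespace Pool.Agent.H14.AR

open Set Function MeasureTheory Filter Topology
open scoped Manifold ContDiff Matrix
open Pool.Agent.H61.AR Pool.Agent.H60.CM

theorem cpt_deriv (r θ : ℝ) :
    HasDerivAt (cpt r) ![-(r * Real.sin θ), r * Real.cos θ, 0] θ := by
  rw [hasDerivAt_pi]
  intro i
  fin_cases i
  · have h := (Real.hasDerivAt_cos θ).const_mul r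
    simpa [cpt] using h
  · have h := (Real.hasDerivAt_sin θ).const_mul r
    simpa [cpt] using h
  · have h := hasDerivAt_const θ (0 : ℝ)
    simpa [cpt] using h

theorem cpt_per (r θ : ℝ) : cpt r (θ + 2 * Real.pi) = cpt r θ := by
  unfold cpt
  rw [Real.cos_add_two_pi, Real.sin_add_two_pi]

/-- the angle -/
theorem angle {r θ₀ : ℝ} (hr : 0 < r) {x : V3} (hx : x ∈ circ r) (h0 : 0 < x ⬝ᵥ cpt r θ₀) :
    (Real.cos θ₀ * x 1 - Real.sin θ₀ * x 0) / r < 1 ∧
    -1 < (Real.cos θ₀ * x 1 - Real.sin θ₀ * x 0) / r ∧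
    x = cpt r (θ₀ + Real.arcsin ((Real.cos θ₀ * x 1 - Real.sin θ₀ * x 0) / r)) := by
  obtain ⟨h2, hn⟩ := hx
  have hn' : x 0 ^ 2 + x 1 ^ 2 = r ^ 2 := by
    simp only [dotProduct, Fin.sum_univ_three, h2] at hn
    linarith
  have h0' : 0 < r * (Real.cos θ₀ * x 0 + Real.sin θ₀ * x 1) := by
    simp only [dotProduct, Fin.sum_univ_three, cpt] at h0
    simp at h0
    linarith
  have hC : 0 < (Real.cos θ₀ * x 0 + Real.sin θ₀ * x 1) / r :=
    div_pos ((mul_pos_iff_of_pos_left hr).1 h0') hr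
  set S := (Real.cos θ₀ * x 1 - Real.sin θ₀ * x 0) / r with hS
  set C := (Real.cos θ₀ * x 0 + Real.sin θ₀ * x 1) / r with hCd
  have hcs := Real.cos_sq_add_sin_sq θ₀
  have hSC : S ^ 2 + C ^ 2 = 1 := by
    rw [hS, hCd, div_pow, div_pow, ← add_div, div_eq_one_iff_eq (by positivity), ← hn']
    linear_combination (x 0 ^ 2 + x 1 ^ 2) * hcs
  have hS1 : S < 1 := by nlinarith
  have hS2 : -1 < S := by nlinarith
  refine ⟨hS1, hS2, ?_⟩
  have hca : Real.cos (Real.arcsin S) = C := by
    rw [Real.cos_arcsin, show 1 - S ^ 2 = C ^ 2 by linarith, Real.sqrt_sq hC.le]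
  have hsa : Real.sin (Real.arcsin S) = S := Real.sin_arcsin hS2.le hS1.le
  unfold cpt
  rw [Real.cos_add, Real.sin_add, hca, hsa, hS, hCd]
  funext i
  fin_cases i
  · simp
    field_simp
    linear_combination (-x 0) * hcs
  · simp
    field_simp
    linear_combination (-x 1) * hcs
  · simp [h2]

theorem cpt_inj {r q θ : ℝ} (hr : 0 < r) (h : cpt r q = cpt r θ)
    (h1 : |q - θ| < 2 * Real.pi) : q = θ := by
  have hc : Real.cos q = Real.cos θ := by
    have h2 := congrFun h 0
    simp [cpt] at h2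
    exact h2.resolve_right hr.ne'
  have hs : Real.sin q = Real.sin θ := by
    have h2 := congrFun h 1
    simp [cpt] at h2
    exact h2.resolve_right hr.ne'
  have h3 : Real.cos (q - θ) = 1 := by
    rw [Real.cos_sub, hc, hs]
    nlinarith [Real.cos_sq_add_sin_sq θ]
  rw [abs_lt] at h1
  have h4 := (Real.cos_eq_one_iff_of_lt_of_lt h1.1 h1.2).1 h3
  linarith

theorem pf_CHV : T_CHV := by
  intro r a θ₀ X hr ha hX hmem hder
  set S : ℝ → ℝ := fun t => (Real.cos θ₀ * X t 1 - Real.sin θ₀ * X t 0) / r with hS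
  set th : ℝ → ℝ := fun t => θ₀ + Real.arcsin (S t) with hth
  have hang : ∀ t ∈ Ioo (-a) a, S t < 1 ∧ -1 < S t ∧ X t = cpt r (th t) := fun t ht =>
    angle hr (hmem t ht).1 (hmem t ht).2
  have hnhd : ∀ t ∈ Ioo (-a) a, Ioo (-a) a ∈ 𝓝 t := fun t ht => isOpen_Ioo.mem_nhds ht
  have hXd : ∀ t ∈ Ioo (-a) a, DifferentiableAt ℝ X t := fun t ht =>
    (hX.contDiffAt (hnhd t ht)).differentiableAt (by norm_num)
  have hSd : ∀ t ∈ Ioo (-a) a, DifferentiableAt ℝ S t := by
    intro t ht
    have h1 := differentiableAt_pi.1 (hXd t ht)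
    exact (((h1 1).const_mul _).sub ((h1 0).const_mul _)).div_const r
  have hthd : ∀ t ∈ Ioo (-a) a, HasDerivAt th (deriv th t) t := by
    intro t ht
    refine DifferentiableAt.hasDerivAt ?_
    refine (differentiableAt_const θ₀).add ?_
    exact ((Real.differentiableAt_arcsin.2 ⟨(hang t ht).2.1.ne', (hang t ht).1.ne⟩).comp t
      (hSd t ht))
  have hXe : ∀ t ∈ Ioo (-a) a, X =ᶠ[𝓝 t] fun s => cpt r (th s) := by
    intro t ht
    filter_upwards [hnhd t ht] with s hs
    exact (hang s hs).2.2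
  have hth0 : ∀ t ∈ Ioo (-a) a, deriv th t ≠ 0 := by
    intro t ht h0
    refine hder t ht ?_
    rw [(hXe t ht).deriv_eq]
    have h1 := (cpt_deriv r (th t)).scomp t (hthd t ht)
    rw [h0, zero_smul] at h1
    exact h1.deriv
  have hthr : ∀ t, θ₀ - Real.pi / 2 ≤ th t ∧ th t ≤ θ₀ + Real.pi / 2 := by
    intro t
    have h1 := Real.neg_pi_div_two_le_arcsin (S t)
    have h2 := Real.arcsin_le_pi_div_two (S t)
    constructor
    · show _ ≤ θ₀ + Real.arcsin (S t)
      linarith
    · show θ₀ + Real.arcsin (S t) ≤ _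
      linarith
  have hinj : InjOn th (Ioo (-a) a) ∧ ∃ k : ℝ, (k = 1 ∨ k = -1) ∧
      ∀ t ∈ Ioo (-a) a, deriv th t = k * |deriv th t| := by
    have hw : ∀ t ∈ Ioo (-a) a, HasDerivWithinAt th (deriv th t) (Ioo (-a) a) t :=
      fun t ht => (hthd t ht).hasDerivWithinAt
    have hcont : ContinuousOn th (Ioo (-a) a) := fun t ht =>
      (hthd t ht).continuousAt.continuousWithinAt
    rcases hasDerivWithinAt_forall_lt_or_forall_gt_of_forall_ne (convex_Ioo (-a) a) hw hth0
      with h1 | h1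
    · refine ⟨(strictAntiOn_of_deriv_neg (convex_Ioo (-a) a) hcont fun t ht => ?_).injOn, -1,
        Or.inr rfl, fun t ht => ?_⟩
      · rw [interior_Ioo] at ht
        exact h1 t ht
      · rw [abs_of_neg (h1 t ht)]
        ring
    · refine ⟨(strictMonoOn_of_deriv_pos (convex_Ioo (-a) a) hcont fun t ht => ?_).injOn, 1,
        Or.inl rfl, fun t ht => ?_⟩
      · rw [interior_Ioo] at ht
        exact h1 t ht
      · rw [abs_of_pos (h1 t ht)]
        ring
  obtain ⟨hinj, k, hk, hkt⟩ := hinj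
  refine ⟨k, hk, fun u h B hu hup hB hhu hu0 => ?_⟩
  set G : ℝ → ℝ := fun θ => u θ * deriv (fun τ => B (cpt r τ)) θ with hG
  have hGp : Periodic G (2 * Real.pi) := by
    intro θ
    show u (θ + 2 * Real.pi) * deriv (fun τ => B (cpt r τ)) (θ + 2 * Real.pi) = _
    rw [hup, ← deriv_comp_add_const]
    simp_rw [cpt_per]
    rfl
  have h1 : ∫ t in (-a)..a, h t * deriv (fun τ => B (X τ)) t =
      ∫ t in Ioo (-a) a, k * (|deriv th t| • G (th t)) := by
    rw [intervalIntegral.integral_of_le (by linarith), integral_Ioc_eq_integral_Ioo]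
    refine setIntegral_congr_fun measurableSet_Ioo fun t ht => ?_
    have h2 : (fun τ => B (X τ)) =ᶠ[𝓝 t] (fun τ => B (cpt r τ)) ∘ th := by
      filter_upwards [hXe t ht] with s hs
      rw [hs]
      rfl
    have h3 : DifferentiableAt ℝ (fun τ => B (cpt r τ)) (th t) :=
      (hB.differentiable (by norm_num) _).comp (th t) (cpt_deriv r (th t)).differentiableAt
    have h4 := (h3.hasDerivAt.comp t (hthd t ht)).deriv
    show h t * deriv (fun τ => B (X τ)) t = k * (|deriv th t| * G (th t))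
    rw [h2.deriv_eq, h4, hhu t ht (th t) (hang t ht).2.2]
    show _ = k * (|deriv th t| * (u (th t) * deriv (fun τ => B (cpt r τ)) (th t)))
    linear_combination (u (th t) * deriv (fun τ => B (cpt r τ)) (th t)) * hkt t ht
  rw [h1, integral_const_mul, ← integral_image_eq_integral_abs_deriv_smul measurableSet_Ioo
    (fun t ht => (hthd t ht).hasDerivWithinAt) hinj G]
  congr 1
  have h5 : ∫ θ in th '' Ioo (-a) a, G θ = ∫ θ in Ioc (θ₀ - Real.pi) (θ₀ + Real.pi), G θ := by
    refine (setIntegral_eq_of_subset_of_forall_sdiff_eq_zero measurableSet_Ioc ?_ ?_).symm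
    · rintro _ ⟨t, _, rfl⟩
      have h6 := hthr t
      have h7 := Real.pi_pos
      exact ⟨by linarith, by linarith⟩
    · rintro q ⟨hq, hq'⟩
      have h6 : u q = 0 := by
        refine hu0 q fun t ht hXq => hq' ⟨t, ht, ?_⟩
        rw [(hang t ht).2.2] at hXq
        refine cpt_inj hr hXq ?_
        have h7 := hthr t
        have h8 := Real.pi_pos
        rw [abs_lt]
        constructor
        · linarith [hq.2]
        · linarith [hq.1]
      show u q * _ = 0
      rw [h6, zero_mul]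
  rw [h5, ← intervalIntegral.integral_of_le (by linarith [Real.pi_pos])]
  have h9 := hGp.intervalIntegral_add_eq (θ₀ - Real.pi) 0
  rw [show θ₀ - Real.pi + 2 * Real.pi = θ₀ + Real.pi by ring, zero_add] at h9
  exact h9

end Pool.Agent.H14.AR
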