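import Pool.Agent.H61.AR.Targets
import Pool.Agent.H74.CM.HES

/-!
# Board MP_d9d403_gt (arq_modules), row LST: Stokes on a half box
-/

set_option autoImplicit false

namespace Pool.Agent.H14.AR

open Set Function MeasureTheory Filter Topology
open scoped Manifold ContDiff Matrix
open Pool.Agent.H61.AR Pool.Agent.H60.CM

/-- coordinates -/
noncomputable def fL : ℝ × ℝ →L[ℝ] E2 :=
  (ContinuousLinearMap.fst ℝ ℝ ℝ).smulRight (ee 0) +
    (ContinuousLinearMap.snd ℝ ℝ ℝ).smulRight (ee 1)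

theorem fL_eq (p : ℝ × ℝ) : fL p = p.1 • ee 0 + p.2 • ee 1 := rfl

theorem fL_0 (p : ℝ × ℝ) : fL p 0 = p.1 := by simp [fL_eq, ee]

theorem fL_1 (p : ℝ × ℝ) : fL p 1 = p.2 := by simp [fL_eq, ee]

theorem fL_mp : MeasurePreserving fL volume volume ∧ MeasurableEmbedding fL := by
  have h : (fL : ℝ × ℝ → E2) = (WithLp.toLp 2 : (Fin 2 → ℝ) → E2) ∘
      (MeasurableEquiv.finTwoArrow (α := ℝ)).symm := by
    funext p
    ext k
    fin_cases k <;> simp [fL_eq, ee, MeasurableEquiv.finTwoArrow]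
  rw [h]
  exact ⟨(PiLp.volume_preserving_toLp (Fin 2)).comp ((volume_preserving_finTwoArrow ℝ).symm),
    (MeasurableEquiv.toLp 2 (Fin 2 → ℝ)).measurableEmbedding.comp
    (MeasurableEquiv.finTwoArrow (α := ℝ)).symm.measurableEmbedding⟩

theorem Qi_open (a : ℝ) : IsOpen (Qi a) := by
  have h0 : Continuous fun y : E2 => y 0 := by fun_prop
  have h1 : Continuous fun y : E2 => |y 1| := by fun_prop
  exact (isOpen_lt continuous_const h0).inter ((isOpen_lt h0 continuous_const).inter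
    (isOpen_lt h1 continuous_const))

theorem Qi_sub (a : ℝ) : Qi a ⊆ Qb a := fun _ hy => ⟨hy.1.le, hy.2.1, hy.2.2⟩

theorem Qb_convex (a : ℝ) : Convex ℝ (Qb a) := by
  intro x hx y hy s t hs ht hst
  obtain ⟨x1, x2, x3⟩ := hx
  obtain ⟨y1, y2, y3⟩ := hy
  rw [abs_lt] at x3 y3
  have e0 : (s • x + t • y : E2) 0 = s * x 0 + t * y 0 := by simp
  have e1 : (s • x + t • y : E2) 1 = s * x 1 + t * y 1 := by simp
  refine ⟨?_, ?_, ?_⟩
  · rw [e0]
    positivity
  · rw [e0]
    rcases hs.eq_or_lt with h | h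
    · subst h
      have : t = 1 := by linarith
      subst this
      linarith
    · nlinarith
  · rw [e1, abs_lt]
    rcases hs.eq_or_lt with h | h
    · subst h
      have : t = 1 := by linarith
      subst this
      constructor <;> linarith
    · constructor <;> nlinarith

theorem Qb_unique {a : ℝ} (ha : 0 < a) : UniqueDiffOn ℝ (Qb a) := by
  refine uniqueDiffOn_convex (Qb_convex a) ?_
  refine ⟨fL (a / 2, 0), interior_mono (Qi_sub a) ?_⟩
  rw [(Qi_open a).interior_eq]
  refine ⟨?_, ?_, ?_⟩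
  · rw [fL_0]
    simpa using ha
  · rw [fL_0]
    simpa using ha
  · rw [fL_1]
    simpa using ha

theorem two_le : (2 : WithTop ℕ∞) ≤ ∞ := ENat.LEInfty.out

/-- the products of `g` with the derivatives of `b` -/
noncomputable def Fq (a : ℝ) (g b : E2 → ℝ) (i : Fin 2) (y : E2) : ℝ :=
  g y * fderivWithin ℝ b (Qb a) y (ee i)

theorem Fq_smooth {a : ℝ} (ha : 0 < a) {g b : E2 → ℝ} (hg : ContDiffOn ℝ ∞ g (Qb a))
    (hb : ContDiffOn ℝ ∞ b (Qb a)) (i : Fin 2) : ContDiffOn ℝ 1 (Fq a g b i) (Qb a) := by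
  have h1 : ContDiffOn ℝ 1 (fderivWithin ℝ b (Qb a)) (Qb a) :=
    hb.fderivWithin (Qb_unique ha) (by rw [one_add_one_eq_two]; exact two_le)
  exact (hg.of_le (by exact_mod_cast (le_top : (1 : ℕ∞) ≤ ⊤))).mul
    (h1.clm_apply contDiffOn_const)

theorem Fq_key {a : ℝ} {g b : E2 → ℝ} (hg : ContDiffOn ℝ ∞ g (Qb a))
    (hb : ContDiffOn ℝ ∞ b (Qb a)) {y : E2} (hy : y ∈ Qi a) :
    pd (Fq a g b 1) y 0 - pd (Fq a g b 0) y 1 = pd g y 0 * pd b y 1 - pd g y 1 * pd b y 0 := by
  have hn : ∀ z ∈ Qi a, Qb a ∈ 𝓝 z := fun z hz =>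
    mem_of_superset ((Qi_open a).mem_nhds hz) (Qi_sub a)
  have hgA := hg.contDiffAt (hn y hy)
  have hbA := hb.contDiffAt (hn y hy)
  have hpb : ∀ i : Fin 2, ContDiffAt ℝ 1 (fun z => pd b z i) y := by
    intro i
    unfold pd
    exact ((hbA.of_le two_le).fderiv_right (m := 1) (by norm_num)).clm_apply contDiffAt_const
  have hev : ∀ i : Fin 2, Fq a g b i =ᶠ[𝓝 y] fun z => g z * pd b z i := by
    intro i
    filter_upwards [(Qi_open a).mem_nhds hy] with z hz
    unfold Fq pd
    rw [fderivWithin_of_mem_nhds (hn z hz)]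
  have hpd : ∀ i j : Fin 2, pd (Fq a g b i) y j =
      pd g y j * pd b y i + g y * fderiv ℝ (fderiv ℝ b) y (ee j) (ee i) := by
    intro i j
    have h1 : pd (Fq a g b i) y j = pd (fun z => g z * pd b z i) y j := by
      have := (hev i).fderiv_eq (𝕜 := ℝ)
      unfold pd at this ⊢
      rw [this]
    rw [h1, ← Pool.Agent.H74.CM.HES.pd_pd (hbA.of_le two_le)]
    have hgd : DifferentiableAt ℝ g y := hgA.differentiableAt (by simp)
    have hbd : DifferentiableAt ℝ (fun z => pd b z i) y :=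
      (hpb i).differentiableAt (by norm_num)
    have h2 : fderiv ℝ (fun z => g z * pd b z i) y =
        g y • fderiv ℝ (fun z => pd b z i) y + pd b y i • fderiv ℝ g y := fderiv_fun_mul hgd hbd
    show fderiv ℝ (fun z => g z * pd b z i) y (ee j) = _
    rw [h2]
    simp only [add_apply, smul_apply, smul_eq_mul]
    unfold pd
    ring
  have hsym : fderiv ℝ (fderiv ℝ b) y (ee 0) (ee 1) = fderiv ℝ (fderiv ℝ b) y (ee 1) (ee 0) :=
    ((hbA.of_le two_le).isSymmSndFDerivAt (by simp)) (ee 0) (ee 1)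
  rw [hpd 1 0, hpd 0 1, hsym]
  ring

theorem pf_LST : T_LST := by
  intro a a' g b ha' haa hg hb hz
  have ha : 0 < a := ha'.trans haa
  set A : ℝ := (a + a') / 2 with hA
  have hA1 : a' < A := by linarith
  have hA2 : A < a := by linarith
  have hA0 : 0 < A := by linarith
  have hU := Qb_unique ha
  have hn : ∀ z ∈ Qi a, Qb a ∈ 𝓝 z := fun z hz =>
    mem_of_superset ((Qi_open a).mem_nhds hz) (Qi_sub a)
  -- the closed box
  have hbox : ∀ p ∈ (uIcc 0 A ×ˢ uIcc (-A) A : Set (ℝ × ℝ)), fL p ∈ Qb a := by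
    rintro ⟨s, t⟩ ⟨h1, h2⟩
    rw [uIcc_of_le hA0.le] at h1
    rw [uIcc_of_le (by linarith)] at h2
    refine ⟨?_, ?_, ?_⟩
    · rw [fL_0]
      exact h1.1
    · rw [fL_0]
      exact h1.2.trans_lt hA2
    · rw [fL_1, abs_lt]
      exact ⟨by linarith [h2.1], by linarith [h2.2]⟩
  have hboxi : ∀ p ∈ (Ioo 0 A ×ˢ Ioo (-A) A : Set (ℝ × ℝ)), fL p ∈ Qi a := by
    rintro ⟨s, t⟩ ⟨h1, h2⟩
    refine ⟨?_, ?_, ?_⟩
    · rw [fL_0]
      exact h1.1
    · rw [fL_0]
      exact h1.2.trans hA2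
    · rw [fL_1, abs_lt]
      exact ⟨by linarith [h2.1], by linarith [h2.2]⟩
  have hF1 := Fq_smooth ha hg hb 1
  have hF0 := Fq_smooth ha hg hb 0
  have hcL : Continuous (fun p : ℝ × ℝ => fL p) := fL.continuous
  set D : ℝ × ℝ → ℝ := fun p =>
    ((fderivWithin ℝ (Fq a g b 1) (Qb a) (fL p)).comp fL) (1, 0) +
    (-((fderivWithin ℝ (Fq a g b 0) (Qb a) (fL p)).comp fL)) (0, 1) with hD
  have hDc : ContinuousOn D (uIcc 0 A ×ˢ uIcc (-A) A) := by
    have h1 : ContinuousOn (fderivWithin ℝ (Fq a g b 1) (Qb a)) (Qb a) :=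
      hF1.continuousOn_fderivWithin hU le_rfl
    have h0 : ContinuousOn (fderivWithin ℝ (Fq a g b 0) (Qb a)) (Qb a) :=
      hF0.continuousOn_fderivWithin hU le_rfl
    have h1' := h1.comp hcL.continuousOn hbox
    have h0' := h0.comp hcL.continuousOn hbox
    exact (h1'.clm_apply continuousOn_const).add ((h0'.clm_apply continuousOn_const).neg)
  have hDi : IntegrableOn D (uIcc 0 A ×ˢ uIcc (-A) A) :=
    hDc.integrableOn_compact (isCompact_uIcc.prod isCompact_uIcc)
  have hdiv := integral2_divergence_prod_of_hasFDerivAt_off_countable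
    (fun p => Fq a g b 1 (fL p)) (fun p => -Fq a g b 0 (fL p))
    (fun p => (fderivWithin ℝ (Fq a g b 1) (Qb a) (fL p)).comp fL)
    (fun p => -((fderivWithin ℝ (Fq a g b 0) (Qb a) (fL p)).comp fL)) 0 (-A) A A ∅
    countable_empty (hF1.continuousOn.comp hcL.continuousOn hbox)
    (hF0.continuousOn.comp hcL.continuousOn hbox).neg ?_ ?_ hDi
  rotate_left
  · intro p hp
    rw [sdiff_empty, min_eq_left hA0.le, max_eq_right hA0.le, min_eq_left (by linarith),
      max_eq_right (by linarith)] at hp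
    have h1 := hboxi p hp
    have h2 : HasFDerivAt (Fq a g b 1) (fderivWithin ℝ (Fq a g b 1) (Qb a) (fL p)) (fL p) :=
      ((hF1.differentiableOn (by norm_num) _ (Qi_sub a h1)).hasFDerivWithinAt).hasFDerivAt
        (hn _ h1)
    exact h2.comp p fL.hasFDerivAt
  · intro p hp
    rw [sdiff_empty, min_eq_left hA0.le, max_eq_right hA0.le, min_eq_left (by linarith),
      max_eq_right (by linarith)] at hp
    have h1 := hboxi p hp
    have h2 : HasFDerivAt (Fq a g b 0) (fderivWithin ℝ (Fq a g b 0) (Qb a) (fL p)) (fL p) :=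
      ((hF0.differentiableOn (by norm_num) _ (Qi_sub a h1)).hasFDerivWithinAt).hasFDerivAt
        (hn _ h1)
    exact (h2.comp p fL.hasFDerivAt).neg
  -- the boundary terms
  have hb1 : ∫ s in (0 : ℝ)..A, -Fq a g b 0 (fL (s, A)) = 0 := by
    rw [intervalIntegral.integral_of_le hA0.le]
    refine setIntegral_eq_zero_of_forall_eq_zero fun s hs => ?_
    have h1 : g (fL (s, A)) = 0 := by
      refine hz _ (hbox (s, A) ⟨?_, right_mem_uIcc⟩) (Or.inr ?_)
      · rw [uIcc_of_le hA0.le]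
        exact Ioc_subset_Icc_self hs
      · rw [fL_1, abs_of_pos hA0]
        exact hA1
    unfold Fq
    rw [h1, zero_mul, neg_zero]
  have hb2 : ∫ s in (0 : ℝ)..A, -Fq a g b 0 (fL (s, -A)) = 0 := by
    rw [intervalIntegral.integral_of_le hA0.le]
    refine setIntegral_eq_zero_of_forall_eq_zero fun s hs => ?_
    have h1 : g (fL (s, -A)) = 0 := by
      refine hz _ (hbox (s, -A) ⟨?_, left_mem_uIcc⟩) (Or.inr ?_)
      · rw [uIcc_of_le hA0.le]
        exact Ioc_subset_Icc_self hs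
      · rw [fL_1, abs_neg, abs_of_pos hA0]
        exact hA1
    unfold Fq
    rw [h1, zero_mul, neg_zero]
  have hb3 : ∫ t in (-A)..A, Fq a g b 1 (fL (A, t)) = 0 := by
    rw [intervalIntegral.integral_of_le (by linarith)]
    refine setIntegral_eq_zero_of_forall_eq_zero fun t ht => ?_
    have h1 : g (fL (A, t)) = 0 := by
      refine hz _ (hbox (A, t) ⟨right_mem_uIcc, ?_⟩) (Or.inl ?_)
      · rw [uIcc_of_le (by linarith)]
        exact Ioc_subset_Icc_self ht
      · rw [fL_0]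
        exact hA1
    unfold Fq
    rw [h1, zero_mul]
  have hb4 : ∫ t in (-A)..A, Fq a g b 1 (fL (0, t)) =
      ∫ t in (-a)..a, g (bpt t) * deriv (fun τ => b (bpt τ)) t := by
    have hsub : Ioo (-A) A ⊆ Ioo (-a) a := Ioo_subset_Ioo (by linarith) hA2.le
    have hbp : ∀ t ∈ Ioo (-a) a, bpt t ∈ Qb a := by
      intro t ht
      refine ⟨?_, ?_, ?_⟩
      · simp [bpt, ee]
      · simp [bpt, ee, ha]
      · have : (bpt t) 1 = t := by simp [bpt, ee]
        rw [this, abs_lt]
        exact ht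
    have h0 : ∀ t, fL (0, t) = bpt t := by
      intro t
      rw [fL_eq, zero_smul, zero_add]
      rfl
    have hd : ∀ t ∈ Ioo (-a) a, deriv (fun τ => b (bpt τ)) t =
        fderivWithin ℝ b (Qb a) (bpt t) (ee 1) := by
      intro t ht
      have h1 : HasFDerivWithinAt b (fderivWithin ℝ b (Qb a) (bpt t)) (Qb a) (bpt t) :=
        (hb.differentiableOn (by norm_num) _ (hbp t ht)).hasFDerivWithinAt
      have h2 : HasDerivWithinAt bpt (ee 1) (Ioo (-a) a) t := by
        have h3 := ((hasDerivAt_id t).smul_const (ee 1)).hasDerivWithinAt (s := Ioo (-a) a)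
        rw [one_smul] at h3
        exact h3
      have h3 := (h1.comp_hasDerivWithinAt t h2 hbp).hasDerivAt (isOpen_Ioo.mem_nhds ht)
      exact h3.deriv
    rw [intervalIntegral.integral_of_le (by linarith), integral_Ioc_eq_integral_Ioo,
      intervalIntegral.integral_of_le (by linarith), integral_Ioc_eq_integral_Ioo]
    rw [setIntegral_eq_of_subset_of_forall_sdiff_eq_zero measurableSet_Ioo hsub]
    · refine setIntegral_congr_fun measurableSet_Ioo fun t ht => ?_
      show Fq a g b 1 (fL (0, t)) = g (bpt t) * deriv (fun τ => b (bpt τ)) t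
      rw [h0, hd t (hsub ht)]
      rfl
    · rintro t ⟨ht, ht'⟩
      have h1 : g (bpt t) = 0 := by
        refine hz _ (hbp t ht) (Or.inr ?_)
        have : (bpt t) 1 = t := by simp [bpt, ee]
        rw [this]
        by_contra hc
        push Not at hc
        rw [abs_le] at hc
        exact ht' ⟨by linarith [hc.1], by linarith [hc.2]⟩
      rw [h1, zero_mul]
  -- the left hand side
  have hlhs : ∫ y in Qi a, (pd g y 0 * pd b y 1 - pd g y 1 * pd b y 0) =
      ∫ s in (0 : ℝ)..A, ∫ t in (-A)..A, D (s, t) := by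
    have hsub : Qi A ⊆ Qi a := fun y hy => ⟨hy.1, hy.2.1.trans hA2, hy.2.2.trans hA2⟩
    rw [setIntegral_eq_of_subset_of_forall_sdiff_eq_zero (Qi_open a).measurableSet hsub]
    · have hpre : fL ⁻¹' Qi A = (Ioo 0 A ×ˢ Ioo (-A) A : Set (ℝ × ℝ)) := by
        ext p
        simp only [mem_preimage, Qi, mem_ofPred_eq, fL_0, fL_1, mem_prod, mem_Ioo, abs_lt]
        tauto
      rw [← fL_mp.1.setIntegral_preimage_emb fL_mp.2, hpre]
      have h1 : ∫ p in (Ioo 0 A ×ˢ Ioo (-A) A : Set (ℝ × ℝ)),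
          (pd g (fL p) 0 * pd b (fL p) 1 - pd g (fL p) 1 * pd b (fL p) 0) =
          ∫ p in (Ioo 0 A ×ˢ Ioo (-A) A : Set (ℝ × ℝ)), D p := by
        refine setIntegral_congr_fun (measurableSet_Ioo.prod measurableSet_Ioo) fun p hp => ?_
        have h2 := hboxi p hp
        show pd g (fL p) 0 * pd b (fL p) 1 - pd g (fL p) 1 * pd b (fL p) 0 = D p
        rw [← Fq_key hg hb h2]
        have e0 : fL (1, 0) = ee 0 := by simp [fL_eq]
        have e1 : fL (0, 1) = ee 1 := by simp [fL_eq]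
        simp only [hD, neg_apply, ContinuousLinearMap.comp_apply, e0, e1]
        rw [fderivWithin_of_mem_nhds (hn _ h2), fderivWithin_of_mem_nhds (hn _ h2)]
        unfold pd
        ring
      rw [h1]
      have h2 : IntegrableOn D (Ioo 0 A ×ˢ Ioo (-A) A : Set (ℝ × ℝ)) := by
        refine hDi.mono_set (prod_mono ?_ ?_)
        · rw [uIcc_of_le hA0.le]
          exact Ioo_subset_Icc_self
        · rw [uIcc_of_le (by linarith)]
          exact Ioo_subset_Icc_self
      rw [Measure.volume_eq_prod] at h2 ⊢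
      rw [setIntegral_prod _ h2, intervalIntegral.integral_of_le hA0.le,
        integral_Ioc_eq_integral_Ioo]
      refine setIntegral_congr_fun measurableSet_Ioo fun s _ => ?_
      show ∫ t in Ioo (-A) A, D (s, t) = ∫ t in (-A)..A, D (s, t)
      rw [intervalIntegral.integral_of_le (by linarith), integral_Ioc_eq_integral_Ioo]
    · rintro y ⟨hy, hy'⟩
      have h1 : a' < y 0 ∨ a' < |y 1| := by
        by_contra hc
        push Not at hc
        exact hy' ⟨hy.1, by linarith [hc.1], by linarith [hc.2]⟩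
      have h2 : g =ᶠ[𝓝 y] fun _ => 0 := by
        have c0 : Continuous fun y : E2 => y 0 := by fun_prop
        have c1 : Continuous fun y : E2 => |y 1| := by fun_prop
        have h3 : ∀ᶠ z in 𝓝 y, a' < z 0 ∨ a' < |z 1| := by
          rcases h1 with h1 | h1
          · filter_upwards [(isOpen_lt continuous_const c0).mem_nhds h1] with z hz
            exact Or.inl hz
          · filter_upwards [(isOpen_lt continuous_const c1).mem_nhds h1] with z hz
            exact Or.inr hz
        filter_upwards [(Qi_open a).mem_nhds hy, h3] with z hz1 hz2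
        exact hz z (Qi_sub a hz1) hz2
      unfold pd
      rw [h2.fderiv_eq (𝕜 := ℝ)]
      simp
  rw [hlhs]
  have hdiv' : ∫ s in (0 : ℝ)..A, ∫ t in (-A)..A, D (s, t) =
      (((∫ s in (0 : ℝ)..A, -Fq a g b 0 (fL (s, A))) -
        ∫ s in (0 : ℝ)..A, -Fq a g b 0 (fL (s, -A))) +
        ∫ t in (-A)..A, Fq a g b 1 (fL (A, t))) -
      ∫ t in (-A)..A, Fq a g b 1 (fL (0, t)) := hdiv
  rw [hdiv', hb1, hb2, hb3, hb4]
  ring

end Pool.Agent.H14.AR
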